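import Pool.Agent.H938.CU.Over

/-!
# The Albanese torsor and torsors under abelian varieties

The data of a smooth projective geometrically integral variety `X` over a field `k` of
characteristic `p` which enter the comparison of `C_NC` for `X` with the class of the Albanese
torsor `Alb^1_X` in `H^1(k, Alb_X)`, and the case of the torsors under abelian varieties.
-/

set_option autoImplicit false

namespace Pool.Agent.H938.CU

open TensorProduct Pool.Agent.H938.BK

/-- The Albanese variety `Alb` of a smooth projective geometrically integral variety `X` over a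
field `k`; its dual is denoted by `P`. The ring `A` is `K_0(X × X)`. For `z` in `A` and a geometric
point `x` of `X` let `z_x` be the restriction of `z` to `x × X`. The determinant of the cohomology
of `z_x ⊗ M`, where `M` runs through the line bundles in `P`, is a line bundle on `P`; it depends on
the normalization of the line bundles `M`, and defines a morphism from `X` to the Baer sum of the
torsors `Alb^χ` and `Pic^ν_P`, where `χ` is the Euler characteristic of `z_x` and `ν` is the class of
the line bundle in the Néron-Severi group of `P`. -/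
structure AlbaneseData (A : Type) [Ring A] where
  /-- the ring of the endomorphisms of `Alb` over `k` -/
  Endo : Type
  /-- the group `H^1(k, Alb)` -/
  Torsors : Type
  /-- the group of the Galois invariants in the Néron-Severi group of `P` -/
  NS : Type
  [ringEndo : Ring Endo]
  [addTorsors : AddCommGroup Torsors]
  [modTorsors : Module Endo Torsors]
  [addNS : AddCommGroup NS]
  /-- the Euler characteristic of `z_x` -/
  chi : A →+ ℤ
  /-- the class in the Néron-Severi group of `P` of the determinant of the cohomology of
  `z_x ⊗ M` -/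
  nu : A →+ NS
  /-- the linear part of the morphism from `X` to the torsor `Alb^χ + Pic^ν_P` -/
  psi : A →+ Endo
  /-- the class of the torsor `Pic^ν_P` -/
  pic : NS →+ Torsors
  /-- the class of the Albanese torsor `Alb^1` of `X` -/
  torsor : Torsors
  /-- the morphism from `Alb^1` to `Alb^χ + Pic^ν_P` -/
  push : ∀ z : A, psi z • torsor = chi z • torsor + pic (nu z)

attribute [instance] AlbaneseData.ringEndo AlbaneseData.addTorsors AlbaneseData.modTorsors
  AlbaneseData.addNS

/-- The invariants of `z` in `A` are determined by the action of `z` on the realization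
`K ⊗_W T`; here `pt` is the class of a point. -/
structure IsAlbaneseRealization {W A : Type} [CommRing W] [Ring A] (K : Type) [Field K]
    [Algebra W K] (D : AlbaneseData A) (T : SuperRep W A) (pt : T.Even) : Prop where
  /-- if the classes of `z_x` and of `n` points have the same realization, then the Euler
  characteristic of `z_x` is `n`, and the class in the Néron-Severi group vanishes -/
  even : ∀ (z : A) (n : ℤ), (T.actEven z).baseChange K (1 ⊗ₜ pt) = (n : K) ⊗ₜ pt →
    D.chi z = n ∧ D.nu z = 0
  odd : ∀ z : A, (T.actOdd z).baseChange K = 0 → D.psi z = 0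

/-- The data of a smooth projective geometrically integral variety `X` over a field `k` of
characteristic `p` and of the dg category of perfect complexes on `X`. -/
structure Variety (p : ℕ) [Fact p.Prime] (k κ : Type) [Field k] [Field κ] [CharP κ p]
    [Algebra k κ] (K : Type) [Field K] [Algebra (WittVector p κ) K] extends
    OverField p k κ K where
  /-- the Albanese torsor -/
  albanese : AlbaneseData Corr
  /-- the class of a point -/
  point : TP.Even
  realization : IsAlbaneseRealization K albanese TP point

/-- `z` acts on the even part of `T` as `1` and on the odd part as `-1` -/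
def IsSign {W A : Type} [CommRing W] [Ring A] (T : SuperRep W A) (z : A) : Prop :=
  (∀ x, T.actEven z x = x) ∧ ∀ x, T.actOdd z x = -x

/-- The endomorphism `z` of `M` and the endomorphism `z'` of `M'` are related by the maps `f` from
`M` to `M'` and `g` from `M'` to `M`, that is, `z = g z' f`. -/
def Transfers {W M M' : Type} [CommRing W] [AddCommGroup M] [Module W M] [AddCommGroup M']
    [Module W M'] (f : M →ₗ[W] M') (g : M' →ₗ[W] M) (z : Module.End W M)
    (z' : Module.End W M') : Prop :=
  ∀ x : M, z x = g (z' (f x))

/-- The maps `f` from `M` to `M'` and `g` from `M'` to `M` are inverse to each other up to the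
factor `N`. -/
def InverseUpTo {W M M' : Type} [CommRing W] [AddCommGroup M] [Module W M] [AddCommGroup M']
    [Module W M'] (N : ℕ) (f : M →ₗ[W] M') (g : M' →ₗ[W] M) : Prop :=
  (∀ x : M, g (f x) = N • x) ∧ ∀ y : M', f (g y) = N • y

/-- The realizations `T` of `X` and `T'` of `X'` are related by maps `f = f_*` and `g = f^*` (even
and odd parts), for a finite morphism from `X` to `X'` of degree `N`, which are inverse to each
other up to the factor `N`; with a class `z'` in `A' = K_0(X' × X')` also `f^* z' f_*` is the
operator of a class in `A = K_0(X × X)`, and conversely. -/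
structure Linked {W A A' : Type} [CommRing W] [Ring A] [Ring A'] (T : SuperRep W A)
    (T' : SuperRep W A') (N : ℕ) where
  /-- the direct image -/
  pushEven : T.Even →ₗ[W] T'.Even
  /-- the inverse image -/
  pullEven : T'.Even →ₗ[W] T.Even
  /-- the direct image -/
  pushOdd : T.Odd →ₗ[W] T'.Odd
  /-- the inverse image -/
  pullOdd : T'.Odd →ₗ[W] T.Odd
  even : InverseUpTo N pushEven pullEven
  odd : InverseUpTo N pushOdd pullOdd
  pull : ∀ z' : A', ∃ z : A, Transfers pushEven pullEven (T.actEven z) (T'.actEven z') ∧
    Transfers pushOdd pullOdd (T.actOdd z) (T'.actOdd z')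
  push : ∀ z : A, ∃ z' : A', Transfers pullEven pushEven (T'.actEven z') (T.actEven z) ∧
    Transfers pullOdd pushOdd (T'.actOdd z') (T.actOdd z)

namespace Variety

variable {p : ℕ} [Fact p.Prime] {k κ : Type} [Field k] [Field κ] [CharP κ p] [Algebra k κ]
  {K : Type} [Field K] [Algebra (WittVector p κ) K]

/-- the period of the Albanese torsor of `X`: the order of the class of `Alb^1_X` in
`H^1(k, Alb_X)` -/
noncomputable def period (X : Variety p k κ K) : ℕ := addOrderOf X.albanese.torsor

/-- Properties of an abelian variety: its topological periodic cyclic homology is torsion-free, and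
the graph of the multiplication by `-1` acts on it as the sign operator. -/
def IsAbelian (A : Variety p k κ K) : Prop :=
  A.TP.TorsionFree p ∧ ∃ z : A.Corr, IsSign A.TP z

/-- Properties of a torsor `X` under an abelian variety `A` of dimension `d`: if `n t = 0`, where `t`
is the class of `X = Alb^1_X`, and `n` is prime to `p`, then there is a finite étale morphism from
`X` to `A` of degree `n ^ (2 * d)`, over the multiplication by `n`. -/
def IsTorsor (X A : Variety p k κ K) : Prop :=
  X.TP.TorsionFree p ∧ A.IsAbelian ∧ ∃ d : ℕ, ∀ n : ℕ, ¬ p ∣ n → n • X.albanese.torsor = 0 →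
    Nonempty (Linked X.TP A.TP (n ^ (2 * d)))

/-- `C_NC` for `X` implies that the period of the Albanese torsor is prime to `p`. -/
theorem not_dvd_period [IsAlgClosure k κ] [IsFractionRing (WittVector p κ) K]
    (X : Variety p k κ K) (F L : Type) [Field F] [Field L] [Algebra F L] [Algebra k L]
    (h : X.HPk.Kunneth F L) : ¬ p ∣ X.period := by
  intro hdvd
  obtain ⟨htf, z, n, hn, h0, h1⟩ := (X.kunneth_iff F L).1 h
  obtain ⟨hc, hnu⟩ := X.realization.even z n (by
    rw [h0, ← nsmul_one, LinearMap.smul_apply, Module.End.one_apply, ← Nat.cast_smul_eq_nsmul K,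
      TensorProduct.smul_tmul', smul_eq_mul, mul_one, Int.cast_natCast])
  have hp := X.albanese.push z
  rw [X.realization.odd z h1, hnu, hc, zero_smul, map_zero, add_zero, natCast_zsmul] at hp
  exact hn (hdvd.trans (addOrderOf_dvd_of_nsmul_eq_zero hp.symm))

theorem linked_proj {W A A' : Type} [CommRing W] [Ring A] [Ring A'] {T : SuperRep W A}
    {T' : SuperRep W A'} {N : ℕ} (l : Linked T T' N) {z : A} {n : ℕ}
    (h0 : T.actEven z = (n : Module.End W T.Even)) (h1 : T.actOdd z = 0) :
    ∃ z' : A', T'.actEven z' = ((n * N : ℕ) : Module.End W T'.Even) ∧ T'.actOdd z' = 0 := by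
  obtain ⟨z', hz0, hz1⟩ := l.push z
  refine ⟨z', ?_, ?_⟩
  · refine LinearMap.ext fun x => ?_
    rw [hz0, h0, ← nsmul_one, LinearMap.smul_apply, Module.End.one_apply, map_nsmul, l.even.2,
      ← nsmul_one, LinearMap.smul_apply, Module.End.one_apply, mul_nsmul, smul_smul, smul_smul,
      mul_comm]
  · refine LinearMap.ext fun x => ?_
    rw [hz1, h1, LinearMap.zero_apply, map_zero, LinearMap.zero_apply]

/-- the converse of the link -/
def _root_.Pool.Agent.H938.CU.Linked.symm {W A A' : Type} [CommRing W] [Ring A] [Ring A']
    {T : SuperRep W A} {T' : SuperRep W A'} {N : ℕ} (l : Linked T T' N) : Linked T' T N where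
  pushEven := l.pullEven
  pullEven := l.pushEven
  pushOdd := l.pullOdd
  pullOdd := l.pushOdd
  even := ⟨l.even.2, l.even.1⟩
  odd := ⟨l.odd.2, l.odd.1⟩
  pull := l.push
  push := l.pull

theorem proj_of_linked [IsAlgClosed κ] [IsFractionRing (WittVector p κ) K]
    (X Y : Variety p k κ K) {N : ℕ} (hN : ¬ p ∣ N) (l : Linked X.TP Y.TP N)
    (hX : X.TP.TorsionFree p) (hY : Y.TP.TorsionFree p) (h : X.TP.ProjIntegral p K) :
    Y.TP.ProjIntegral p K := by
  obtain ⟨z, n, hn, h0, h1⟩ := (projIntegral_iff X.toSaturated hX).1 h
  obtain ⟨z', h0', h1'⟩ := linked_proj l h0 h1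
  refine (projIntegral_iff Y.toSaturated hY).2 ⟨z', n * N, fun hd => ?_, h0', h1'⟩
  rcases (Nat.Prime.dvd_mul Fact.out).1 hd with hd | hd
  · exact hn hd
  · exact hN hd

theorem not_dvd_pow {n : ℕ} (hn : ¬ p ∣ n) (d : ℕ) : ¬ p ∣ n ^ (2 * d) := fun h =>
  hn (Nat.Prime.dvd_of_dvd_pow Fact.out h)

/-- for a torsor -/
theorem kunneth_torsor_iff [IsAlgClosure k κ] [IsFractionRing (WittVector p κ) K]
    (X A : Variety p k κ K) (hXA : X.IsTorsor A) (F L : Type) [Field F] [Field L] [Algebra F L]
    [Algebra k L] : X.HPk.Kunneth F L ↔ ¬ p ∣ X.period ∧ A.HPk.Kunneth F L := by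
  have : IsAlgClosed κ := IsAlgClosure.isAlgClosed k
  obtain ⟨htf, hA, d, hd⟩ := hXA
  have hper : X.period • X.albanese.torsor = 0 := addOrderOf_nsmul_eq_zero _
  constructor
  · intro h
    have hp := X.not_dvd_period F L h
    refine ⟨hp, (A.kunneth_iff F L).2 ⟨hA.1, ?_⟩⟩
    obtain ⟨l⟩ := hd _ hp hper
    exact proj_of_linked X A (not_dvd_pow hp d) l htf hA.1 ((X.kunneth_iff F L).1 h).2
  · rintro ⟨hp, h⟩
    refine (X.kunneth_iff F L).2 ⟨htf, ?_⟩
    obtain ⟨l⟩ := hd _ hp hper
    exact proj_of_linked A X (not_dvd_pow hp d) l.symm hA.1 htf ((A.kunneth_iff F L).1 h).2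

/-- for an abelian variety in odd characteristic -/
theorem kunneth_abelian [IsAlgClosure k κ] [IsFractionRing (WittVector p κ) K]
    (A : Variety p k κ K) (hA : A.IsAbelian) (hp : p ≠ 2) (F L : Type) [Field F] [Field L]
    [Algebra F L] [Algebra k L] : A.HPk.Kunneth F L := by
  have : IsAlgClosed κ := IsAlgClosure.isAlgClosed k
  obtain ⟨htf, z, h0, h1⟩ := hA
  refine (A.kunneth_iff F L).2 ⟨htf, (projIntegral_iff A.toSaturated htf).2 ⟨1 + z, 2, ?_, ?_, ?_⟩⟩
  · intro h
    exact hp ((Nat.prime_dvd_prime_iff_eq Fact.out Nat.prime_two).1 h)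
  · refine LinearMap.ext fun x => ?_
    rw [map_add, map_one, LinearMap.add_apply, h0, Module.End.one_apply, Nat.cast_ofNat,
      ← one_add_one_eq_two, LinearMap.add_apply, Module.End.one_apply]
  · refine LinearMap.ext fun x => ?_
    rw [map_add, map_one, LinearMap.add_apply, h1, Module.End.one_apply, LinearMap.zero_apply,
      add_neg_cancel]

end Variety

end Pool.Agent.H938.CU
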