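import Pool.Agent.H938.CU.Over

/-!
# Curves over arbitrary fields of positive characteristic

The data of a smooth projective geometrically integral curve `C` over a field `k` of
characteristic `p`, with Jacobian `J`: the action of the classes in `K_0(C × C)` on the realizations
(Riemann-Roch), and the class of the torsor `Pic^1_C` in `H^1(k, J)`.
-/

set_option autoImplicit false

namespace Pool.Agent.H938.CU

open TensorProduct Pool.Agent.H938.BK

section Predicates

variable {W A M N P E H : Type} [CommRing W] [Ring A] [AddCommGroup M] [Module W M]
  [AddCommGroup N] [Module W N] [AddCommGroup P] [Ring E] [AddCommGroup H] [Module E H]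

/-- The action of the classes `z` in `A = K_0(C × C)` on the even realization `M`, with basis `b`
(the classes of `O_C` and of a point), and on the odd realization `N`. Here `g` is the genus, `rank`
and `det` are the rank and the determinant, `deg₁` and `deg₂` are the degrees of a line bundle in
`P = Pic(C × C)` on `C × pt` and on `pt × C`, and `hom` sends a line bundle `L` to the endomorphism
`[x - y] ↦ L_x - L_y` of the Jacobian, where `L_x` is the restriction to `x × C`. The endomorphisms
of the Jacobian act on `N` by `act`. -/
structure IsRiemannRoch (ρ : A →+* Module.End W M) (ρ' : A →+* Module.End W N)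
    (b : Module.Basis (Fin 2) W M) (g : ℕ) (rank : A →+ ℤ) (det : A →+ P) (deg₁ deg₂ : P →+ ℤ)
    (hom : P →+ E) (act : E →+ Module.End W N) : Prop where
  structureSheaf : ∀ z : A, ∃ m : ℤ, ρ z (b 0) = (rank z * (1 - g) + deg₁ (det z)) • b 0 + m • b 1
  point : ∀ z : A, ρ z (b 1) = rank z • b 0 + deg₂ (det z) • b 1
  odd : ∀ z : A, ρ' z = act (hom (det z))
  faithful : Function.Injective act

/-- The class `t` of the torsor `Pic^1_C` in `H = H^1(k, J)`, on which the ring `E` of the
endomorphisms of the Jacobian `J` acts. -/
structure IsPicardTorsor (deg₁ deg₂ : P →+ ℤ) (hom : P →+ E) (t : H) : Prop where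
  /-- the map `x ↦ L_x` is a morphism from `Pic^1_C` to `Pic^(deg₂ L)_C` over `hom L` -/
  push : ∀ L : P, hom L • t = deg₂ L • t
  /-- a rational point `c` of `Pic^n_C` yields the line bundle `c ⊠ c⁻¹`: its obstruction in the
  Brauer group of `k` vanishes -/
  descent : ∀ n : ℤ, n • t = 0 → ∃ L : P, deg₁ L = n ∧ deg₂ L = -n ∧ hom L = 0

end Predicates

/-- The Picard group of `C × C`, the endomorphisms of the Jacobian `J` of `C`, and the class of the
torsor `Pic^1_C`, for a smooth projective geometrically integral curve `C` over a field `k`. The
ring `A` is `K_0(C × C)`. -/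
structure PicardData (A : Type) [Ring A] where
  /-- the genus of `C` -/
  genus : ℕ
  /-- the Picard group of `C × C` -/
  Pic : Type
  /-- the ring of the endomorphisms of the Jacobian `J` over `k` -/
  Endo : Type
  /-- the group `H^1(k, J)` -/
  Torsors : Type
  [addPic : AddCommGroup Pic]
  [ringEndo : Ring Endo]
  [addTorsors : AddCommGroup Torsors]
  [modTorsors : Module Endo Torsors]
  /-- the rank of a class in `K_0(C × C)` -/
  rank : A →+ ℤ
  /-- the determinant of a class in `K_0(C × C)` -/
  det : A →+ Pic
  /-- the degree on `C × pt` -/
  deg₁ : Pic →+ ℤ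
  /-- the degree on `pt × C` -/
  deg₂ : Pic →+ ℤ
  /-- the endomorphism `[x - y] ↦ L_x - L_y` of the Jacobian, for a line bundle `L` on `C × C`, where
  `L_x` is the restriction of `L` to `x × C` -/
  hom : Pic →+ Endo
  /-- the class of `Pic^1_C` -/
  torsor : Torsors
  /-- there are line bundles: the class `[L] - [O]` -/
  line : ∀ L : Pic, ∃ z : A, rank z = 0 ∧ det z = L
  picardTorsor : IsPicardTorsor deg₁ deg₂ hom torsor

attribute [instance] PicardData.addPic PicardData.ringEndo PicardData.addTorsors
  PicardData.modTorsors

/-- The realization `T` of a curve: a basis of the even part and the action of the endomorphisms of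
the Jacobian on the odd part. -/
structure CurveRealization {W A : Type} [CommRing W] [Ring A] (D : PicardData A)
    (T : SuperRep W A) where
  /-- the basis of the even part given by the classes of `O` and of a point -/
  basis : Module.Basis (Fin 2) W T.Even
  /-- the action of the endomorphisms of `J` on the odd part -/
  act : D.Endo →+ Module.End W T.Odd
  riemannRoch : IsRiemannRoch T.actEven T.actOdd basis D.genus D.rank D.det D.deg₁ D.deg₂ D.hom act

/-- The data of a smooth projective geometrically integral curve `C` over a field `k` of
characteristic `p` and of the dg category of perfect complexes on `C`. -/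
structure Curve (p : ℕ) [Fact p.Prime] (k κ : Type) [Field k] [Field κ] [CharP κ p]
    [Algebra k κ] (K : Type) [Field K] [Algebra (WittVector p κ) K] extends
    OverField p k κ K where
  /-- the Picard group of `C × C`, the Jacobian and the torsor `Pic^1_C` -/
  picard : PicardData Corr
  /-- the topological periodic cyclic homology of `C_κ` -/
  realization : CurveRealization picard TP
  torsionFree : TP.TorsionFree p

namespace Curve

variable {p : ℕ} [Fact p.Prime] {k κ : Type} [Field k] [Field κ] [CharP κ p] [Algebra k κ]
  {K : Type} [Field K] [Algebra (WittVector p κ) K]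

/-- the period of `C`: the order of the class of `Pic^1_C` in `H^1(k, J)`; it is the smallest degree
`n > 0` such that the variety `Pic^n_C` has a rational point -/
noncomputable def period (C : Curve p k κ K) : ℕ := addOrderOf C.picard.torsor

variable (C : Curve p k κ K)

theorem act_sq (z : C.Corr) (n : ℤ) (hr : C.picard.rank z = 0) (h1 : C.picard.deg₁ (C.picard.det z) = n)
    (h2 : C.picard.deg₂ (C.picard.det z) = -n) :
    C.TP.actEven (z * z) = ((n * n : ℤ) : Module.End (WittVector p κ) C.TP.Even) := by
  refine C.realization.basis.ext fun i => ?_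
  obtain ⟨m, hm⟩ := C.realization.riemannRoch.structureSheaf z
  have hp := C.realization.riemannRoch.point z
  rw [hr, h1, zero_mul, zero_add] at hm
  rw [hr, h2, zero_smul, zero_add] at hp
  have h3 : ∀ x : C.TP.Even, ((n * n : ℤ) : Module.End (WittVector p κ) C.TP.Even) x =
      (n * n) • x := by
    intro x
    rw [← zsmul_one, LinearMap.smul_apply, Module.End.one_apply]
  rw [map_mul, Module.End.mul_apply, h3]
  fin_cases i
  · show C.TP.actEven z (C.TP.actEven z (C.realization.basis 0)) = (n * n) • C.realization.basis 0
    rw [hm, map_add, map_zsmul, map_zsmul, hm, hp]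
    simp only [smul_add, smul_smul, neg_smul, smul_neg]
    rw [mul_comm m n]
    abel
  · show C.TP.actEven z (C.TP.actEven z (C.realization.basis 1)) = (n * n) • C.realization.basis 1
    rw [hp, map_zsmul, hp, smul_smul, neg_mul_neg]

theorem main [IsAlgClosure k κ] [IsFractionRing (WittVector p κ) K] (F L : Type) [Field F]
    [Field L] [Algebra F L] [Algebra k L] : C.HPk.Kunneth F L ↔ ¬ p ∣ C.period := by
  have : IsAlgClosed κ := IsAlgClosure.isAlgClosed k
  have : CharZero (WittVector p κ) := charZero_witt
  rw [C.kunneth_iff F L]
  constructor
  · rintro ⟨htf, h⟩ hdvd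
    obtain ⟨z, n, hn, h0, h1⟩ := (projIntegral_iff C.toSaturated htf).1 h
    have hp := C.realization.riemannRoch.point z
    have hp' : C.TP.actEven z (C.realization.basis 1) = (n : ℤ) • C.realization.basis 1 := by
      rw [h0, ← nsmul_one, LinearMap.smul_apply, Module.End.one_apply, natCast_zsmul]
    rw [hp', ← Int.cast_smul_eq_zsmul (WittVector p κ), ← Int.cast_smul_eq_zsmul (WittVector p κ),
      ← Int.cast_smul_eq_zsmul (WittVector p κ)] at hp
    have hr := congrArg (fun x => C.realization.basis.repr x 1) hp
    simp only [map_add, map_smul, Finsupp.add_apply, Finsupp.smul_apply, Module.Basis.repr_self,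
      smul_eq_mul, Finsupp.single_eq_same] at hr
    rw [Finsupp.single_eq_of_ne (by decide), mul_zero, zero_add, mul_one, mul_one,
      Int.cast_inj] at hr
    have ho := C.realization.riemannRoch.odd z
    rw [h1] at ho
    have hh : C.picard.hom (C.picard.det z) = 0 := by
      apply C.realization.riemannRoch.faithful
      rw [map_zero, ← ho]
    have ht := C.picard.picardTorsor.push (C.picard.det z)
    rw [hh, zero_smul, ← hr, natCast_zsmul] at ht
    exact hn (hdvd.trans (addOrderOf_dvd_of_nsmul_eq_zero ht.symm))
  · intro h
    refine ⟨C.torsionFree, (projIntegral_iff C.toSaturated C.torsionFree).2 ?_⟩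
    have h1 : ((C.period : ℕ) : ℤ) • C.picard.torsor = 0 := by
      rw [natCast_zsmul]
      exact addOrderOf_nsmul_eq_zero _
    obtain ⟨L, hL1, hL2, hL⟩ := C.picard.picardTorsor.descent _ h1
    obtain ⟨z, hz1, hz2⟩ := C.picard.line L
    refine ⟨z * z, C.period * C.period, ?_, ?_, ?_⟩
    · intro hd
      exact h (by rcases (Nat.Prime.dvd_mul Fact.out).1 hd with h | h <;> exact h)
    · rw [C.act_sq z C.period hz1 (by rw [hz2, hL1]) (by rw [hz2, hL2])]
      push_cast
      rfl
    · rw [map_mul, C.realization.riemannRoch.odd z, hz2, hL, map_zero, mul_zero]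

end Curve

end Pool.Agent.H938.CU
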