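import Pool.Agent.H938.BK.Main

/-!
# Saturated dg categories over arbitrary fields of positive characteristic

The realizations of a saturated dg category `𝒜` over a field `k` of characteristic `p`: the
periodic cyclic homology of `𝒜`, which is a super vector space over `k`, and the realizations of
`𝒜 ⊗_k κ`, where `κ` is an algebraic closure of `k`.
-/

set_option autoImplicit false

namespace Pool.Agent.H938.CU

open TensorProduct Pool.Agent.H938.BK

/-- the isomorphism `ext` identifies the action `σ'` of the ring `A` on `V'` with the extension of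
scalars of the action `σ` on `V` -/
def IsExtension {k κ A V V' : Type} [Field k] [Field κ] [Algebra k κ] [Ring A] [AddCommGroup V]
    [Module k V] [AddCommGroup V'] [Module κ V'] (σ : A →+* Module.End k V)
    (σ' : A →+* Module.End κ V') (ext : κ ⊗[k] V ≃ₗ[κ] V') : Prop :=
  ∀ (z : A) (x : V), ext (1 ⊗ₜ[k] σ z x) = σ' z (ext (1 ⊗ₜ[k] x))

/-- The data of a saturated dg category `𝒜` over a field `k` of characteristic `p`, where `κ` is an
algebraic closure of `k` and `K` is the field of fractions of the ring `W(κ)` of Witt vectors. The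
ring `Corr` is `K_0(𝒜^op ⊗_k 𝒜)`, it acts on the realizations `TP` and `HP` of `𝒜 ⊗_k κ`. -/
structure OverField (p : ℕ) [Fact p.Prime] (k κ : Type) [Field k] [Field κ] [CharP κ p]
    [Algebra k κ] (K : Type) [Field K] [Algebra (WittVector p κ) K] extends Saturated p κ K where
  /-- the periodic cyclic homology of `𝒜` over `k` -/
  HPk : SuperRep k Corr
  /-- the periodic cyclic homology of `𝒜 ⊗_k κ` -/
  extEven : κ ⊗[k] HPk.Even ≃ₗ[κ] HP.Even
  /-- the periodic cyclic homology of `𝒜 ⊗_k κ` -/
  extOdd : κ ⊗[k] HPk.Odd ≃ₗ[κ] HP.Odd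
  isExtensionEven : IsExtension HPk.actEven HP.actEven extEven
  isExtensionOdd : IsExtension HPk.actOdd HP.actOdd extOdd

section

variable {k κ A V V' : Type} [Field k] [Field κ] [Algebra k κ] [Ring A] [AddCommGroup V]
    [Module k V] [AddCommGroup V'] [Module κ V']

theorem operator_eq (σ : A →+* Module.End k V) (c : A →₀ k) :
    operator k κ σ c = (comb σ c).baseChange κ := by
  classical
  have h : (comb σ c).baseChange κ =
      Module.End.baseChangeHom k κ V (∑ z ∈ c.support, c z • σ z) := rfl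
  rw [h, map_sum, operator]
  refine Finset.sum_congr rfl fun z _ => ?_
  rw [map_smul, algebraMap_smul]
  rfl

theorem comb_ext {σ : A →+* Module.End k V} {σ' : A →+* Module.End κ V'}
    {ext : κ ⊗[k] V ≃ₗ[κ] V'} (h : IsExtension σ σ' ext) (c : A →₀ k) (x : V) :
    comb σ' (c.mapRange (algebraMap k κ) (map_zero _)) (ext (1 ⊗ₜ x)) = ext (1 ⊗ₜ comb σ c x) := by
  classical
  rw [comb, comb, Finsupp.sum_mapRange_index (fun z => by rw [zero_smul]), Finsupp.sum, Finsupp.sum,
    LinearMap.sum_apply, LinearMap.sum_apply, TensorProduct.tmul_sum, map_sum]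
  refine Finset.sum_congr rfl fun z _ => ?_
  rw [LinearMap.smul_apply, LinearMap.smul_apply, ← h z x, TensorProduct.tmul_smul,
    ← algebraMap_smul κ (c z) ((1 : κ) ⊗ₜ[k] (σ z x)), map_smul]

theorem eq_of_ext (ext : κ ⊗[k] V ≃ₗ[κ] V') (f g : Module.End κ V')
    (h : ∀ x : V, f (ext (1 ⊗ₜ x)) = g (ext (1 ⊗ₜ x))) : f = g := by
  refine LinearMap.ext fun y => ?_
  obtain ⟨w, rfl⟩ := ext.surjective y
  induction w using TensorProduct.induction_on with
  | zero => rw [map_zero, map_zero, map_zero]
  | add a b ha hb => rw [map_add, map_add, map_add, ha, hb]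
  | tmul a x =>
    have h1 : a ⊗ₜ[k] x = a • ((1 : κ) ⊗ₜ[k] x) := by
      rw [TensorProduct.smul_tmul', smul_eq_mul, mul_one]
    rw [h1, map_smul, map_smul, map_smul, h]

theorem one_tmul_injective {x y : V} (h : (1 : κ) ⊗ₜ[k] x = 1 ⊗ₜ[k] y) : x = y := by
  obtain ⟨l, hl⟩ := exists_retraction k κ
  have h1 := congrArg (fun w => (TensorProduct.lid k V) (LinearMap.rTensor V l w)) h
  simp only [LinearMap.rTensor_tmul, TensorProduct.lid_tmul, hl, one_smul] at h1
  exact h1

end

variable {p : ℕ} [Fact p.Prime] {k κ : Type} [Field k] [Field κ] [CharP κ p] [Algebra k κ]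
  {K : Type} [Field K] [Algebra (WittVector p κ) K]

theorem OverField.kunneth_of_prime (𝒜 : OverField p k κ K) (F L : Type) [Field F]
    [Field L] [Algebra F L] [Algebra k L] (h : 𝒜.HP.KunnethPrimeField) : 𝒜.HPk.Kunneth F L := by
  obtain ⟨z, h0, h1⟩ := h
  refine kunneth_of F L ⟨z, ?_, ?_⟩
  · refine LinearMap.ext fun x => one_tmul_injective (κ := κ) (𝒜.extEven.injective ?_)
    rw [𝒜.isExtensionEven, h0]
    rfl
  · refine LinearMap.ext fun x => one_tmul_injective (κ := κ) (𝒜.extOdd.injective ?_)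
    rw [𝒜.isExtensionOdd, h1]
    rw [LinearMap.zero_apply, LinearMap.zero_apply, TensorProduct.tmul_zero, map_zero]

theorem OverField.kunneth_iff [IsAlgClosure k κ] [IsFractionRing (WittVector p κ) K]
    (𝒜 : OverField p k κ K) (F L : Type) [Field F] [Field L] [Algebra F L] [Algebra k L] :
    𝒜.HPk.Kunneth F L ↔ 𝒜.TP.TorsionFree p ∧ 𝒜.TP.ProjIntegral p K := by
  have : IsAlgClosed κ := IsAlgClosure.isAlgClosed k
  have hm := 𝒜.toSaturated.main κ κ
  constructor
  · intro h
    obtain ⟨a, h0, h1⟩ := exists_coeff 𝒜.HPk h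
    have h3 : 𝒜.HP.Kunneth κ κ := by
      refine ⟨a.mapRange (algebraMap k κ) (map_zero _), ?_, ?_⟩
      · rw [operator_eq]
        have h2 : comb 𝒜.HP.actEven (a.mapRange (algebraMap k κ) (map_zero _)) = 1 := by
          refine eq_of_ext 𝒜.extEven _ _ fun x => ?_
          rw [comb_ext 𝒜.isExtensionEven, h0]
          rfl
        rw [h2]
        exact LinearMap.baseChange_id
      · rw [operator_eq]
        have h2 : comb 𝒜.HP.actOdd (a.mapRange (algebraMap k κ) (map_zero _)) = 0 := by
          refine eq_of_ext 𝒜.extOdd _ _ fun x => ?_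
          rw [comb_ext 𝒜.isExtensionOdd, h1, LinearMap.zero_apply, LinearMap.zero_apply,
            TensorProduct.tmul_zero, map_zero]
        rw [h2]
        exact LinearMap.baseChange_zero
    exact (hm.out 0 4).1 h3
  · intro h
    exact 𝒜.kunneth_of_prime F L ((hm.out 4 1).1 h)

/-- the projector on the integral level -/
theorem projIntegral_iff [IsAlgClosed κ] [IsFractionRing (WittVector p κ) K]
    (𝒜 : Saturated p κ K) (htf : 𝒜.TP.TorsionFree p) :
    𝒜.TP.ProjIntegral p K ↔ ∃ (z : 𝒜.Corr) (n : ℕ), ¬ p ∣ n ∧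
      𝒜.TP.actEven z = (n : Module.End (WittVector p κ) 𝒜.TP.Even) ∧ 𝒜.TP.actOdd z = 0 := by
  have h := 𝒜.isSaturated
  have := h.finEven
  have := h.finOdd
  have := free_of_torsionFree htf.1
  have := free_of_torsionFree htf.2
  constructor
  · rintro ⟨z, n, hn, hz0, hz1⟩
    refine ⟨z, n, hn, ?_, ?_⟩
    · apply LinearMap.baseChangeHom_injective (WittVector p κ) 𝒜.TP.Even K (N := 𝒜.TP.Even)
      have h2 : Module.End.baseChangeHom (WittVector p κ) K 𝒜.TP.Even
          (n : Module.End (WittVector p κ) 𝒜.TP.Even) = (n : Module.End _ _) :=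
        map_natCast _ n
      exact hz0.trans h2.symm
    · apply LinearMap.baseChangeHom_injective (WittVector p κ) 𝒜.TP.Odd K (N := 𝒜.TP.Odd)
      rw [map_zero]
      exact hz1
  · rintro ⟨z, n, hn, hz0, hz1⟩
    refine ⟨z, n, hn, ?_, ?_⟩
    · rw [hz0]
      exact map_natCast (Module.End.baseChangeHom (WittVector p κ) K 𝒜.TP.Even) n
    · rw [hz1]
      exact LinearMap.baseChange_zero

end Pool.Agent.H938.CU
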